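import Pool.Agent.H20.RT.Stmts

/-! Row STP of board `rt`: the step lemma. -/

set_option autoImplicit false

namespace Pool.RT

theorem STP_thm (hCTO : CTOStmt) (hTWD : TWDStmt) : STPStmt := by
  intro u m a1 a2 a3 a4 a5 a6 a7 a8 a9 hu hm hs h1 h2 h3 h4 h5 h6 h7 h8 h9
  have hdig : Nat.digits 10 (Nat.ofDigits 10 u) = u :=
    Nat.digits_ofDigits 10 (by norm_num) u (fun l hl => by have := hu l hl; omega)
      (fun h => by have := hu _ (List.getLast_mem h); omega)
  have hsum : Nat.ofDigits 10 u + rv (Nat.ofDigits 10 u) = Nat.ofDigits 10 m := by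
    unfold rv
    rw [hdig, hs]
  apply hTWD <;> rw [hsum, hCTO m _ hm (by norm_num)] <;> assumption

end Pool.RT
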